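import Mathlib
import Pool.Agent.Helper4_UH.Unconditional

/-!
A quasi-Banach space with an `r`-convex unconditional basis which is a uniform retract of a
Banach space is locally convex up to a logarithmic factor on coordinate subspaces.
-/

open Set Topology
open scoped Pointwise

namespace Pool.Agent.Results.MP_68deb0_an.LogConvexity

/-- Let `E` be a real topological vector space with a bounded neighbourhood `U` of zero (for
example a quasi-Banach space with its unit ball) and `e i`, `e' i` a biorthogonal system such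
that `U` is solid and `r`-convex with respect to the coordinates `e' i` (for example an
unconditional basis with `r`-convex lattice quasi-norm). If `E` is a uniform retract of a Banach
space `F`, then there is a constant `C` such that for every nonempty finite set `S` of indices,
every vector of the convex hull of `U` which is supported on `S` lies in
`C (1 + log |S|) ^ (1 / r) • U`. -/
theorem result {ι : Type*} (E : Type*) [AddCommGroup E] [Module ℝ E] [UniformSpace E]
    [IsUniformAddGroup E] [ContinuousSMul ℝ E]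
    (U : Set E) (hU : U ∈ 𝓝 (0 : E)) (hUb : Bornology.IsVonNBounded ℝ U)
    (e : ι → E) (e' : ι → E →L[ℝ] ℝ)
    (h1 : ∀ i, e' i (e i) = 1) (h0 : ∀ i j, i ≠ j → e' i (e j) = 0)
    (hsolid : ∀ u ∈ U, ∀ (S : Finset ι) (a : ι → ℝ), (∀ i ∈ S, |a i| ≤ |e' i u|) →
      ∑ i ∈ S, a i • e i ∈ U)
    (r : ℝ) (hr : 0 < r)
    (hconvex : ∀ u ∈ U, ∀ v ∈ U, ∀ t ∈ Icc (0 : ℝ) 1, ∀ S : Finset ι,
      ∑ i ∈ S, (((1 - t) * |e' i u| ^ r + t * |e' i v| ^ r) ^ (1 / r)) • e i ∈ U)
    (F : Type*) [NormedAddCommGroup F] [NormedSpace ℝ F] [CompleteSpace F]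
    (f : E → F) (g : F → E) (hf : UniformContinuous f) (hg : UniformContinuous g)
    (hgf : ∀ x, g (f x) = x) :
    ∃ C : ℝ, 0 < C ∧ ∀ (S : Finset ι) (a : ι → ℝ), S.Nonempty →
      ∑ i ∈ S, a i • e i ∈ convexHull ℝ U →
      ∑ i ∈ S, a i • e i ∈ (C * (1 + Real.log S.card) ^ (1 / r)) • U :=
  Pool.Agent.Helper4_UH.log_convexity hf hg hgf hU hUb h1 h0 hsolid hr hconvex

end Pool.Agent.Results.MP_68deb0_an.LogConvexity
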