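import Mathlib
import Pool.Agent.Helper4_UH.LorentzMain

/-!
Lorentz spaces `Λ^q_φ(μ)` with `q < 1`, in particular `L_{p,q}(μ)` with `q < 1 ≤ p`, are not
uniform retracts of Banach spaces.
-/

open Set Topology MeasureTheory
open scoped ENNReal

namespace Pool.Agent.Results.MP_68deb0_an.LorentzSpaces

/-- Let `μ` be a measure, `φ` a quasi-concave function (for example `φ t = t ^ (1 / p)` with
`p ≥ 1`) and `0 < q < 1`. Let `E` be a real topological vector space with a bounded neighbourhood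
`U` of zero, and `T` a linear map from `E` to the measurable functions which is bounded from `U`
to the Lorentz space `Λ^q_φ(μ)`. Suppose that for all `m` and `Λ` there are disjoint sets
`A 1, …, A m` of finite positive measure with `Λ φ(μ (A i)) ≤ φ(μ (A j))` for `i < j`, such that
the normalized indicator functions `1_{A i} / φ(μ (A i))` are images of elements of `U` under
`T`. Then there are no uniformly continuous maps `f` from `E` to a Banach space `F` and `g` from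
`F` to `E` with `g ∘ f = id`. -/
theorem result {Ω : Type*} [MeasurableSpace Ω] (μ : Measure Ω) (φ : ℝ≥0∞ → ℝ≥0∞)
    (hφm : Monotone φ) (hφc : ∀ a b, a ≤ b → b ≠ ∞ → a * φ b ≤ b * φ a)
    (hφ0 : ∀ a, a ≠ 0 → a ≠ ∞ → φ a ≠ 0 ∧ φ a ≠ ∞)
    (q : ℝ) (hq0 : 0 < q) (hq1 : q < 1)
    (E : Type*) [AddCommGroup E] [Module ℝ E] [UniformSpace E] [IsUniformAddGroup E]
    [ContinuousSMul ℝ E] (U : Set E) (hU : U ∈ 𝓝 (0 : E)) (hUb : Bornology.IsVonNBounded ℝ U)
    (T : E →ₗ[ℝ] (Ω →ₘ[μ] ℝ)) (c : ℝ≥0∞) (hc : c ≠ ∞)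
    (hT : ∀ u ∈ U, ∫⁻ s in Ioi (0 : ℝ),
      ENNReal.ofReal (s ^ (q - 1)) * φ (μ {ω | s < |(T u : Ω → ℝ) ω|}) ^ q ≤ c)
    (hA : ∀ (m : ℕ) (Λ : ℝ), ∃ (A : Fin m → Set Ω) (x : Fin m → E),
      (∀ i, MeasurableSet (A i)) ∧ Pairwise (Function.onFun Disjoint A) ∧
      (∀ i, μ (A i) ≠ 0 ∧ μ (A i) ≠ ∞) ∧
      (∀ i j, i < j → ENNReal.ofReal Λ * φ (μ (A i)) ≤ φ (μ (A j))) ∧
      ∀ i, x i ∈ U ∧ (T (x i) : Ω → ℝ) =ᵐ[μ]
        (A i).indicator (fun _ => (φ (μ (A i))).toReal⁻¹))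
    (F : Type*) [NormedAddCommGroup F] [NormedSpace ℝ F] [CompleteSpace F] :
    ¬ ∃ (f : E → F) (g : F → E), UniformContinuous f ∧ UniformContinuous g ∧
      ∀ x, g (f x) = x := by
  rintro ⟨f, g, hf, hg, hgf⟩
  exact Pool.Agent.Helper4_UH.not_retract_of_lorentz hf hg hgf hU hUb hφm hφc hφ0 hq0 hq1 T hc
    hT hA

end Pool.Agent.Results.MP_68deb0_an.LorentzSpaces
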