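import Mathlib
import Pool.Agent.Helper4_UH.EllP

/-!
Locally bounded spaces with quotients uniformly isomorphic to the spaces `ℓ_p^n`, `p < 1`, are not
uniform retracts of Banach spaces.
-/

open Set Topology

namespace Pool.Agent.Results.MP_68deb0_an.LpQuotients

/-- Let `E` be a real topological vector space with a bounded neighbourhood `U` of zero (for
example a quasi-Banach space with its unit ball), let `0 < p < 1`, and suppose that for
arbitrarily large `n` there is a continuous linear map `P` from `E` to `ℝⁿ` such that `P '' U`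
contains the unit vectors and is contained in a fixed multiple of the unit ball of `ℓ_p^n`. Then
there are no uniformly continuous maps `f` from `E` to a Banach space `F` and `g` from `F` to `E`
with `g ∘ f = id`. -/
theorem result (E : Type*) [AddCommGroup E] [Module ℝ E] [UniformSpace E] [IsUniformAddGroup E]
    [ContinuousSMul ℝ E] (U : Set E) (hU : U ∈ 𝓝 (0 : E)) (hUb : Bornology.IsVonNBounded ℝ U)
    (p c : ℝ) (hp0 : 0 < p) (hp1 : p < 1)
    (hX : ∀ N : ℕ, ∃ n : ℕ, N ≤ n ∧ ∃ P : E →L[ℝ] (Fin n → ℝ),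
      (∀ i, ∃ x ∈ U, P x = Pi.single i (1 : ℝ)) ∧ ∀ u ∈ U, ∑ i, |P u i| ^ p ≤ c)
    (F : Type*) [NormedAddCommGroup F] [NormedSpace ℝ F] [CompleteSpace F] :
    ¬ ∃ (f : E → F) (g : F → E), UniformContinuous f ∧ UniformContinuous g ∧
      ∀ x, g (f x) = x := by
  rintro ⟨f, g, hf, hg, hgf⟩
  refine Pool.Agent.Helper4_UH.not_retract_of_lp_quotients hf hg hgf hU hUb hp0 hp1
    (c := c) fun N => ?_
  obtain ⟨n, hn, P, hP1, hP2⟩ := hX N
  refine ⟨n, hn, ((EuclideanSpace.equiv (Fin n) ℝ).symm : (Fin n → ℝ) →L[ℝ]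
    EuclideanSpace ℝ (Fin n)).comp P, fun i => ?_, fun u hu => ?_⟩
  · obtain ⟨x, hx, hPx⟩ := hP1 i
    refine ⟨x, hx, ?_⟩
    ext j
    simp [hPx]
  · simpa using hP2 u hu

end Pool.Agent.Results.MP_68deb0_an.LpQuotients
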