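import Mathlib
import Pool.Agent.Helper4_UH.Orlicz

/-!
An Orlicz sequence space which is a uniform retract of a Banach space is locally convex.
-/

open Set Topology

namespace Pool.Agent.Results.MP_68deb0_an.OrliczSpaces

/-- Let `M` be a nonnegative nondecreasing function on `[0, ∞)` with `M (a t) ≤ K a ^ r M t` for
`0 ≤ a ≤ 1`. Let `E` be a real topological vector space with vectors `e i` and continuous
coordinate functionals `e' i` (`i` in an infinite set) such that the modular ball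
`{x | ∑ i, M |e' i x| ≤ 1}` is a bounded neighbourhood of zero (for example the Orlicz sequence
space of `M`). If `E` is a uniform retract of a Banach space, then `E` is locally convex. -/
theorem result {ι : Type*} [Infinite ι] (M : ℝ → ℝ)
    (hM0 : ∀ t, 0 ≤ t → 0 ≤ M t) (hM : ∀ s t, 0 ≤ s → s ≤ t → M s ≤ M t)
    (K r : ℝ) (hK : 0 < K) (hr : 0 < r)
    (hMr : ∀ a t, 0 ≤ a → a ≤ 1 → 0 ≤ t → M (a * t) ≤ K * a ^ r * M t)
    (E : Type*) [AddCommGroup E] [Module ℝ E] [UniformSpace E]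
    [IsUniformAddGroup E] [ContinuousSMul ℝ E]
    (e : ι → E) (e' : ι → E →L[ℝ] ℝ)
    (h1 : ∀ i, e' i (e i) = 1) (h0 : ∀ i j, i ≠ j → e' i (e j) = 0)
    (hU : {x : E | ∀ S : Finset ι, ∑ i ∈ S, M |e' i x| ≤ 1} ∈ 𝓝 (0 : E))
    (hUb : Bornology.IsVonNBounded ℝ {x : E | ∀ S : Finset ι, ∑ i ∈ S, M |e' i x| ≤ 1})
    (F : Type*) [NormedAddCommGroup F] [NormedSpace ℝ F] [CompleteSpace F]
    (f : E → F) (g : F → E) (hf : UniformContinuous f) (hg : UniformContinuous g)
    (hgf : ∀ x, g (f x) = x) :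
    LocallyConvexSpace ℝ E :=
  Pool.Agent.Helper4_UH.orlicz_locallyConvex hf hg hgf h1 h0 hM0 hM hK hr hMr hU hUb

end Pool.Agent.Results.MP_68deb0_an.OrliczSpaces
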